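import Pool.Agent.Helper16.AZ.Stmts

/-! FPV: Parseval's identity on the torus. -/

open Finset Filter MeasureTheory Topology
open scoped ComplexConjugate InnerProductSpace

namespace Pool.Agent.Helper16.AZ

open UnitAddTorus (mFourier)

theorem fpv_aux (r : ℕ) (f : C(T r, ℂ)) :
    HasSum (fun X : Fin r → ℤ => ‖fc (fun θ => f θ) X‖ ^ 2) (∫ θ, ‖f θ‖ ^ 2 ∂(mm r)) := by
  have h := UnitAddTorus.hasSum_sq_mFourierCoeff (d := Fin r)
    (ContinuousMap.toLp (E := ℂ) 2 (mm r) ℂ f)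
  have hae : (ContinuousMap.toLp (E := ℂ) 2 (mm r) ℂ f : T r → ℂ) =ᵐ[mm r] f :=
    ContinuousMap.coeFn_toLp (mm r) f
  have h1 : ∀ X : Fin r → ℤ, UnitAddTorus.mFourierCoeff
      (ContinuousMap.toLp (E := ℂ) 2 (mm r) ℂ f : T r → ℂ) X = fc (fun θ => f θ) X := by
    intro X
    show (∫ θ, mFourier (-X) θ • (ContinuousMap.toLp (E := ℂ) 2 (mm r) ℂ f : T r → ℂ) θ ∂(mm r)) =
      _
    unfold fc
    refine integral_congr_ae ?_
    filter_upwards [hae] with θ hθ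
    rw [hθ, smul_eq_mul]
  have h2 : (∫ θ, ‖(ContinuousMap.toLp (E := ℂ) 2 (mm r) ℂ f : T r → ℂ) θ‖ ^ 2 ∂(mm r)) =
      ∫ θ, ‖f θ‖ ^ 2 ∂(mm r) := by
    refine integral_congr_ae ?_
    filter_upwards [hae] with θ hθ
    rw [hθ]
  have h3 : (fun X : Fin r → ℤ => ‖fc (fun θ => f θ) X‖ ^ 2) = fun X : Fin r → ℤ =>
      ‖UnitAddTorus.mFourierCoeff
        (ContinuousMap.toLp (E := ℂ) 2 (mm r) ℂ f : T r → ℂ) X‖ ^ 2 := by
    funext X
    rw [h1 X]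
  rw [← h2, h3]
  exact h

theorem st_FPV : ST_FPV := by
  intro r F hF
  exact fpv_aux r ⟨F, hF⟩

end Pool.Agent.Helper16.AZ
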